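import Pool.Agent.Q294.BRW.Line

/-!
# A quasi-transitive branching random walk without local survival, with uncountably many fixed points
that are not extinction probability vectors
-/

namespace Pool.Agent.Results.MP_c15531_pr.UncountableNonExtinction

open Q294.Branch

/-- There is an irreducible, quasi-transitive, non-singular branching random walk on the integers
with almost sure extinction in every single site, which has exactly the two extinction probability
vectors `0` and `1`, and for which the set of the fixed points of the generating function that are
not extinction probability vectors has the cardinality of the continuum. -/
theorem result : ∃ b : BRW ℤ, b.Irreducible ∧ b.QuasiTransitive ∧ b.NonSingular ∧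
    (∀ x y : ℤ, b.q x {y} = 1) ∧ b.EG = {fun _ => 0, fun _ => 1} ∧
    Cardinal.mk ↥(b.FG \ b.EG) = Cardinal.continuum :=
  ⟨Line.line, Line.irreducible, Line.quasiTransitive, Line.nonSingular,
    fun x _ => Line.q_bddAbove (by simp) x, Line.EG_eq, Line.mk_diff⟩

end Pool.Agent.Results.MP_c15531_pr.UncountableNonExtinction
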